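import Pool.Agent.H79.RV.Du

/-!
# MP_a7284e_an, project RV, row V2 (backup): potential
-/

set_option autoImplicit false

namespace Pool.Agent.H95.RVPot

open Finset Classical
open Pool.Agent.H79.RT Pool.Agent.H79.RU Pool.Agent.H79.RV

section gen

variable {Ω α β : Type*} [Fintype Ω]

theorem ind_nonneg (p : Prop) : 0 ≤ ind p := by unfold ind; split_ifs <;> norm_num

theorem ind_le_one (p : Prop) : ind p ≤ 1 := by unfold ind; split_ifs <;> norm_num

theorem ind_sq (p : Prop) : ind p ^ 2 = ind p := by unfold ind; split_ifs <;> norm_num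

theorem ind_mono {p q : Prop} (h : p → q) : ind p ≤ ind q := by
  unfold ind
  by_cases hp : p
  · rw [if_pos hp, if_pos (h hp)]
  · rw [if_neg hp]; split_ifs <;> norm_num

theorem ce_congr (K : Ω → α) (f : Ω → ℝ) {x x' : Ω} (h : K x = K x') : ce K f x = ce K f x' := by
  unfold ce; rw [du_nn_congr K h, h]

theorem ce_mono (K : Ω → α) {f g : Ω → ℝ} (h : ∀ x, f x ≤ g x) (x : Ω) : ce K f x ≤ ce K g x := by
  unfold ce
  refine div_le_div_of_nonneg_right (sum_le_sum fun i _ => ?_) (du_nn_pos K x).le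
  exact mul_le_mul_of_nonneg_left (h i) (ind_nonneg _)

theorem ce_add (K : Ω → α) (f g : Ω → ℝ) (x : Ω) :
    ce K (fun x => f x + g x) x = ce K f x + ce K g x := by
  unfold ce
  rw [← add_div, ← sum_add_distrib]
  congr 1
  exact sum_congr rfl fun i _ => by ring

theorem ce_mul (K : Ω → α) (f W : Ω → ℝ) (hW : ∀ x x', K x = K x' → W x = W x') (x : Ω) :
    ce K (fun x => f x * W x) x = ce K f x * W x := by
  unfold ce
  rw [div_mul_eq_mul_div, sum_mul]
  congr 1
  refine sum_congr rfl fun i _ => ?_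
  unfold ind
  split_ifs with h
  · show 1 * (f i * W i) = 1 * f i * W x
    rw [hW i x h]; ring
  · simp

theorem ce_const (K : Ω → α) (W : Ω → ℝ) (hW : ∀ x x', K x = K x' → W x = W x') (x : Ω) :
    ce K W x = W x := by
  have h := ce_mul K (fun _ => 1) W hW x
  simp only [one_mul] at h
  rw [h]
  have : ce K (fun _ => (1 : ℝ)) x = 1 := by
    unfold ce
    simp only [mul_one]
    exact div_self (du_nn_pos K x).ne'
  rw [this, one_mul]

theorem ce_sq (K : Ω → α) (f : Ω → ℝ) (x : Ω) : ce K f x ^ 2 ≤ ce K (fun x => f x ^ 2) x := by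
  unfold ce
  rw [div_pow, div_le_div_iff₀ (by have := du_nn_pos K x; positivity) (du_nn_pos K x)]
  have h : (∑ x', ind (K x' = K x) * f x') ^ 2 ≤
      (∑ x', ind (K x' = K x)) * ∑ x', ind (K x' = K x) * f x' ^ 2 := by
    have := sum_mul_sq_le_sq_mul_sq (univ : Finset Ω) (fun x' => ind (K x' = K x))
      (fun x' => ind (K x' = K x) * f x')
    have e1 : ∀ x', ind (K x' = K x) * (ind (K x' = K x) * f x') = ind (K x' = K x) * f x' := by
      intro x'; rw [← mul_assoc, ← pow_two, ind_sq]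
    have e2 : ∀ x', (ind (K x' = K x) * f x') ^ 2 = ind (K x' = K x) * f x' ^ 2 := by
      intro x'; rw [mul_pow, ind_sq]
    simp only [e1, e2, ind_sq] at this
    exact this
  have hn : ∑ x', ind (K x' = K x) = nn K x := rfl
  rw [hn] at h
  nlinarith [du_nn_pos K x]

theorem sum_ce (K : Ω → α) (f : Ω → ℝ) : ∑ x, ce K f x = ∑ x, f x := by
  have := du_ce K f (fun _ => 1) fun _ _ _ => rfl
  simpa using this

/-- tower property -/
theorem ce_tower (K : Ω → α) (L : Ω → β) (h : ∀ x x', L x = L x' → K x = K x') (f : Ω → ℝ)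
    (x : Ω) : ce K (ce L f) x = ce K f x := by
  unfold ce
  congr 1
  have := du_ce L f (fun x' => ind (K x' = K x)) fun a b hab => by rw [h a b hab]
  unfold ce at this
  calc _ = ∑ x', (∑ x'', ind (L x'' = L x') * f x'') / nn L x' * ind (K x' = K x) :=
        sum_congr rfl fun i _ => by ring
    _ = ∑ x', f x' * ind (K x' = K x) := this
    _ = _ := sum_congr rfl fun i _ => by ring

end gen

/-- one step -/
theorem step {Ω : Type} [Fintype Ω] {α α' : Type} (K : Ω → α) (L : Ω → α') (s f g : Ω → ℝ)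
    (hs : ∀ x, s x ^ 2 ≤ 1) (hL : ∀ x x', L x = L x' → K x = K x' ∧ s x = s x')
    (h0 : ∀ x, 0 ≤ f x) (h1 : ∀ x, f x ≤ 1) (hfg : ∀ x, f x ≤ g x) :
    ∑ x, ce K (fun x => s x * f x) x ^ 2 ≤
      2 * (∑ x, ce L g x ^ 2 - ∑ x, ce K f x ^ 2) + 2 * ∑ x, ce K s x ^ 2 := by
  set K' : Ω → α × ℝ := fun x => (K x, s x) with hK'
  set U := ce K f with hU
  set U' := ce K' f with hU'
  have hKK' : ∀ x x', K' x = K' x' → K x = K x' := fun x x' h => (Prod.ext_iff.1 h).1
  have hsK' : ∀ x x', K' x = K' x' → s x = s x' := fun x x' h => (Prod.ext_iff.1 h).2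
  have hLK' : ∀ x x', L x = L x' → K' x = K' x' := fun x x' h => Prod.ext (hL x x' h).1 (hL x x' h).2
  have hUc : ∀ x x', K x = K x' → U x = U x' := fun x x' h => ce_congr K f h
  have hU0 : ∀ x, 0 ≤ U x := fun x => by
    have := ce_mono K h0 x
    rwa [ce_const K (fun _ => (0 : ℝ)) (fun _ _ _ => rfl) x] at this
  have hU1 : ∀ x, U x ≤ 1 := fun x => by
    have := ce_mono K h1 x
    rwa [ce_const K (fun _ => (1 : ℝ)) (fun _ _ _ => rfl) x] at this
  have hU'0 : ∀ x, 0 ≤ U' x := fun x => by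
    have := ce_mono K' h0 x
    rwa [ce_const K' (fun _ => (0 : ℝ)) (fun _ _ _ => rfl) x] at this
  -- the conditional expectation of `s * f`
  have e1 : ∀ x, ce K (fun x => s x * f x) x =
      ce K (fun x => s x * (U' x - U x)) x + ce K s x * U x := by
    intro x
    have a1 : ce K (fun x => s x * f x) x = ce K (fun x => s x * U' x) x := by
      rw [← ce_tower K K' hKK' (fun x => s x * f x) x]
      congr 1
      funext z
      have := ce_mul K' f s hsK' z
      have e : (fun x => s x * f x) = fun x => f x * s x := funext fun x => mul_comm _ _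
      rw [e, this, mul_comm]
    have a2 : (fun x => s x * U' x) = fun x => s x * (U' x - U x) + s x * U x :=
      funext fun x => by ring
    rw [a1, a2, ce_add, ce_mul K s U hUc]
  have e2 : ∀ x, ce K (fun x => s x * f x) x ^ 2 ≤
      2 * ce K (fun x => (U' x - U x) ^ 2) x + 2 * ce K s x ^ 2 := by
    intro x
    rw [e1 x]
    have b1 := ce_sq K (fun x => s x * (U' x - U x)) x
    have b2 : ce K (fun x => (s x * (U' x - U x)) ^ 2) x ≤ ce K (fun x => (U' x - U x) ^ 2) x :=
      ce_mono K (fun z => by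
        rw [mul_pow]
        exact mul_le_of_le_one_left (sq_nonneg _) (hs z)) x
    have b3 : (ce K s x * U x) ^ 2 ≤ ce K s x ^ 2 := by
      rw [mul_pow]
      refine mul_le_of_le_one_right (sq_nonneg _) ?_
      exact pow_le_one₀ (hU0 x) (hU1 x)
    nlinarith [sq_nonneg (ce K (fun x => s x * (U' x - U x)) x - ce K s x * U x)]
  have e3 : ∑ x, ce K (fun x => s x * f x) x ^ 2 ≤
      2 * ∑ x, (U' x - U x) ^ 2 + 2 * ∑ x, ce K s x ^ 2 := by
    refine (sum_le_sum fun x _ => e2 x).trans ?_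
    rw [sum_add_distrib, ← mul_sum, ← mul_sum, sum_ce]
  have e4 : ∑ x, (U' x - U x) ^ 2 = ∑ x, U' x ^ 2 - ∑ x, U x ^ 2 := by
    have c1 : ∑ x, U' x * U x = ∑ x, U x * U x := by
      rw [← du_ce K U' U hUc]
      refine sum_congr rfl fun x _ => ?_
      rw [hU', ce_tower K K' hKK' f x]
    have c2 : ∀ x, (U' x - U x) ^ 2 = U' x ^ 2 - 2 * (U' x * U x) + U x * U x := fun x => by ring
    simp only [c2, sum_add_distrib, sum_sub_distrib, ← mul_sum, c1]
    have : ∑ x, U x * U x = ∑ x, U x ^ 2 := sum_congr rfl fun x _ => by ring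
    rw [this]; ring
  have e5 : ∑ x, U' x ^ 2 ≤ ∑ x, ce L g x ^ 2 := by
    have d1 : ∀ x, U' x ≤ ce K' (ce L g) x := fun x => by
      rw [ce_tower K' L hLK' g x]
      exact ce_mono K' hfg x
    have d2 : ∀ x, U' x ^ 2 ≤ ce K' (fun z => ce L g z ^ 2) x := fun x =>
      (pow_le_pow_left₀ (hU'0 x) (d1 x) 2).trans (ce_sq K' _ x)
    refine (sum_le_sum fun x _ => d2 x).trans ?_
    rw [sum_ce]
  linarith

theorem sg_sq_le {n : ℕ} (i : ℕ) (x : Q n) : sg i x ^ 2 ≤ 1 := by
  unfold sg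
  split_ifs <;> norm_num

theorem pot : SPot := by
  intro n α K χ hR hχ
  set S : ℕ → ℝ := fun i => ∑ x, ce (K i) (fun x => ind (χ i x)) x ^ 2 with hS
  have h1 : ∀ i ∈ range n, ∑ x, ce (K i) (fun x => sg i x * ind (χ i x)) x ^ 2 ≤
      2 * (S (i + 1) - S i) + 2 * ∑ x, ce (K i) (sg i) x ^ 2 := by
    intro i hi
    have hi' := mem_range.1 hi
    exact step (K i) (K (i + 1)) (sg i) (fun x => ind (χ i x)) (fun x => ind (χ (i + 1) x))
      (sg_sq_le i) (fun x x' h => hR i hi' x x' h) (fun x => ind_nonneg _) (fun x => ind_le_one _)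
      (fun x => ind_mono (hχ i hi' x))
  have h2 : ∑ i ∈ range n, ∑ x, ce (K i) (fun x => sg i x * ind (χ i x)) x ^ 2 ≤
      2 * (S n - S 0) + 2 * ∑ i ∈ range n, ∑ x, ce (K i) (sg i) x ^ 2 := by
    refine (sum_le_sum h1).trans ?_
    rw [sum_add_distrib, ← mul_sum, ← mul_sum, sum_range_sub]
  have h3 : S n ≤ ∑ x, ind (χ n x) := by
    have : ∀ x, ce (K n) (fun x => ind (χ n x)) x ^ 2 ≤
        ce (K n) (fun x => ind (χ n x)) x := by
      intro x
      refine (ce_sq (K n) _ x).trans (le_of_eq ?_)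
      congr 1
      funext z
      exact ind_sq _
    refine (sum_le_sum fun x _ => this x).trans ?_
    rw [sum_ce]
  have h4 : 0 ≤ S 0 := sum_nonneg fun x _ => sq_nonneg _
  have h5 : ∑ i ∈ range n, ∑ x, ce (K i) (fun x => sg i x * ind (χ i x)) x ^ 2 ≤
      2 * ∑ x, ind (χ n x) + 2 * ∑ i ∈ range n, ∑ x, ce (K i) (sg i) x ^ 2 := by linarith
  have key : ∀ F : ℕ → Q n → ℝ, ∑ i ∈ range n, av (F i) = (∑ i ∈ range n, ∑ x, F i x) / 2 ^ n := by
    intro F
    rw [sum_div]
    rfl
  rw [key, key]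
  have : av (fun x => ind (χ n x)) = (∑ x, ind (χ n x)) / 2 ^ n := rfl
  rw [this, ← mul_div_assoc, ← mul_div_assoc, ← add_div]
  exact div_le_div_of_nonneg_right h5 (by positivity)

end Pool.Agent.H95.RVPot
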